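import Pool.Agent.H35.CE.G6

/-!
# The supercongruences for `∑ binom(-1/4,k) binom(-1/2,k) / (-3)^k` and `/ 81^k`

Let `S p = ∑_{k<p} binom(-1/4,k) binom(-1/2,k) / (-3)^k` and let `T p` be the sum with `81` instead
of `-3`. For a prime `p ≡ 1 mod 4` we prove

  `S p ≡ (p/3) T p ≡ 2 x - p / (2 x)  mod p^2`  for an odd `x` with `p = x^2 + y^2`

(the statement about `T p` for `p ≠ 5`, where it fails), and for a prime `p ≡ 3 mod 4`

  `S p ≡ T p ≡ 0  mod p`.

The question has the sign `(-1)^((p-1)/4)` in place of `(p/3)`; we deduce that, as printed, part (a)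
is true exactly for the primes `p ≡ 1, 5 mod 24` other than `5`.

Method. Put `u = T + 1/T - 2`; then `(-1)^k binom(2k,k)` is the constant term of `u^k`. For
`κ = -1/12` and `κ = 1/324` the differential `(1 + κ u)^(-1/4) du / √(u (u + 4))` is the pull-back of
`Y^(-1/2) (1 - Y)^(-3/4) dY` (up to a constant) under a rational function `Y(u)` of degree `3` resp. `5`.
This gives an expansion of the truncated sum in terms of the coefficients of `u^(p-1)` in odd powers
of the local parameter `√Y` over `√(u (u + 4))`. The lift of Frobenius `T ↦ T^p` and the associated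
`p`-derivation express the middle coefficient modulo `p^2`; divisibility and degree of one polynomial
modulo `p` then show that both sums are `± (p ∑_{m<p} (3/4)_m / (m! (2 m + 1)))` modulo `p^2`. This
universal value is evaluated by harmonic sums and the theorem of Chowla, Dwork and Evans.
-/

set_option autoImplicit false

namespace Pool.Agent.Results.MP_cec948_nt.Corrected

open Pool.Agent.R439.PL Pool.Agent.R439.PL.FD Pool.Agent.H35.CE

/-- The generalized binomial coefficient `a (a - 1) ⋯ (a - k + 1) / k!`. -/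
def binom (a : ℚ) (k : ℕ) : ℚ := (∏ i ∈ Finset.range k, (a - i)) / k.factorial

/-- The sum `S_p`. -/
def S (p : ℕ) : ℚ := ∑ k ∈ Finset.range p, binom (-1 / 4) k * binom (-1 / 2) k / (-3) ^ k

/-- The sum `T_p`. -/
def T (p : ℕ) : ℚ := ∑ k ∈ Finset.range p, binom (-1 / 4) k * binom (-1 / 2) k / 81 ^ k

/-- `a ≡ b` modulo `p ^ m`: the rational number `(a - b) / p ^ m` has denominator prime to `p`. -/
def Congr (p m : ℕ) (a b : ℚ) : Prop := ((a - b) / (p : ℚ) ^ m).den.Coprime p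

/-- The Legendre symbol `(p/3)` of a prime `p ≠ 3`. -/
def chi (p : ℕ) : ℤ := if p % 3 = 1 then 1 else -1

/-- Part (a) of the question, as printed. -/
def Printed (p : ℕ) : Prop :=
  ∃ x y : ℤ, Odd x ∧ (p : ℤ) = x ^ 2 + y ^ 2 ∧ Congr p 2 (S p) (2 * x - p / (2 * x)) ∧
    Congr p 2 ((-1) ^ ((p - 1) / 4) * T p) (2 * x - p / (2 * x))

variable {p n : ℕ} [hpf : Fact p.Prime]

theorem congr_of_I {m : ℕ} {a b : ℚ} (h : I p m (a - b)) : Congr p m a b :=
  (Nat.Coprime.symm ((Nat.Prime.coprime_iff_not_dvd hpf.out).2 (den_of_I h)))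

theorem I_of_congr {m : ℕ} {a b : ℚ} (h : Congr p m a b) : I p m (a - b) := by
  have hp0 : (p : ℚ) ^ m ≠ 0 := pow_ne_zero _ p_ne
  refine ⟨(a - b) / (p : ℚ) ^ m, ⟨((a - b) / (p : ℚ) ^ m).num, ((a - b) / (p : ℚ) ^ m).den, ?_, ?_⟩, ?_⟩
  · intro hd
    have h1 : p ∣ ((a - b) / (p : ℚ) ^ m).den := by exact_mod_cast hd
    exact ((Nat.Prime.coprime_iff_not_dvd hpf.out).1 (Nat.Coprime.symm h)) h1
  · push_cast
    exact (Rat.num_div_den _).symm
  · field_simp

omit hpf in
theorem S_eq : S p = RS p (-1 / 3) := by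
  refine Finset.sum_congr rfl fun k _ => ?_
  rw [show ((-1 : ℚ) / 3) ^ k = ((-3) ^ k)⁻¹ by rw [← inv_pow]; norm_num, div_eq_mul_inv]
  rfl

omit hpf in
theorem T_eq : T p = RS p (1 / 81) := by
  refine Finset.sum_congr rfl fun k _ => ?_
  rw [one_div, inv_pow]; rfl

/-- The universal value. -/
theorem V_eq (hpn : p = 4 * n + 1) {x y : ℤ} (h : (p : ℤ) = x ^ 2 + y ^ 2) (hx : x % 4 = 1) :
    EQ p 2 (p * aa (3 * n)) ((-1) ^ n * (2 * x - p / (2 * x))) := by
  have s1 := SQ_QQ hpn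
  rw [Pool.Agent.R439.FD.QQ_DD] at s1
  have s2 := DD_TT (p := p) (m := 2 * n) (by omega)
  have s3 := TT_val hpn
  exact (Qval hpn).trans (((s1.trans s2).trans s3).symm.trans (SQ_val hpn h hx))

theorem nz2 (h5 : 5 ≤ p) : (2 : ZMod p) ≠ 0 := by
  have : ((2 ^ 1 * 3 ^ 0 : ℕ) : ZMod p) ≠ 0 := by
    rw [Ne, ZMod.natCast_eq_zero_iff]; exact nd23 h5 1 0
  norm_num at this ⊢
  exact this

theorem nz3 (h5 : 5 ≤ p) : (3 : ZMod p) ≠ 0 := by
  have : ((2 ^ 0 * 3 ^ 1 : ℕ) : ZMod p) ≠ 0 := by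
    rw [Ne, ZMod.natCast_eq_zero_iff]; exact nd23 h5 0 1
  norm_num at this ⊢
  exact this

theorem sq3 (h3 : p % 3 = 1) : IsSquare (-3 : ZMod p) := by
  have h3' : Fact (Nat.Prime 3) := ⟨Nat.prime_three⟩
  have hc : 3 ∣ Fintype.card (ZMod p)ˣ := by
    rw [ZMod.card_units]
    have := hpf.out.pos
    omega
  obtain ⟨w, hw⟩ := exists_prime_orderOf_dvd_card 3 hc
  have h1 : (w : ZMod p) ^ 3 = 1 := by
    have := pow_orderOf_eq_one w
    rw [hw] at this
    rw [← Units.val_pow_eq_pow_val, this, Units.val_one]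
  have h2 : (w : ZMod p) ≠ 1 := by
    intro h
    have : w = 1 := Units.val_eq_one.1 h
    rw [this, orderOf_one] at hw
    omega
  have h4 : (w : ZMod p) ^ 2 + w + 1 = 0 := by
    have : ((w : ZMod p) - 1) * ((w : ZMod p) ^ 2 + w + 1) = 0 := by linear_combination h1
    rcases mul_eq_zero.1 this with h | h
    · exact absurd (sub_eq_zero.1 h) h2
    · exact h
  exact ⟨2 * (w : ZMod p) + 1, by linear_combination -4 * h4⟩

theorem nsq3 (h5 : 5 ≤ p) (h3 : p % 3 = 2) : ¬ IsSquare (-3 : ZMod p) := by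
  rintro ⟨r, hr⟩
  have n2 := nz2 h5
  have n3 := nz3 h5
  obtain ⟨w, hw⟩ : ∃ w : ZMod p, 2 * w = r - 1 := ⟨(r - 1) / 2, by field_simp⟩
  have h1 : w ^ 2 + w + 1 = 0 := by
    have : (2 * 2) * (w ^ 2 + w + 1) = 0 := by linear_combination (2 * w + r + 1) * hw - hr
    rcases mul_eq_zero.1 this with h | h
    · exact absurd h (mul_ne_zero n2 n2)
    · exact h
  have h3' : w ^ 3 = 1 := by linear_combination (w - 1) * h1
  have w0 : w ≠ 0 := by
    rintro rfl
    norm_num at h1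
  have h4 := ZMod.pow_card_sub_one_eq_one w0
  obtain ⟨k, hk⟩ : ∃ k, p - 1 = 3 * k + 1 := ⟨(p - 1) / 3, by omega⟩
  rw [hk, pow_succ, pow_mul, h3', one_pow, one_mul] at h4
  rw [h4] at h1
  apply n3
  linear_combination h1

theorem chi_pow (h5 : 5 ≤ p) (hpn : p = 4 * n + 1) : (-3 : ZMod p) ^ (2 * n) = (chi p : ZMod p) := by
  have h0 : (-3 : ZMod p) ≠ 0 := neg_ne_zero.2 (nz3 h5)
  have h2n : p / 2 = 2 * n := by omega
  have hp3 : p % 3 ≠ 0 := by
    intro h
    have := (Nat.prime_dvd_prime_iff_eq Nat.prime_three hpf.out).1 (Nat.dvd_of_mod_eq_zero h)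
    omega
  rw [← h2n]
  by_cases h : p % 3 = 1
  · rw [chi, if_pos h, (ZMod.euler_criterion p h0).1 (sq3 h)]; simp
  · have hns := nsq3 h5 (by omega)
    rw [chi, if_neg h]
    rcases ZMod.pow_div_two_eq_neg_one_or_one p h0 with h1 | h1
    · exact absurd ((ZMod.euler_criterion p h0).2 h1) hns
    · rw [h1]; simp

omit hpf in
theorem chi_sq : (chi p) ^ 2 = 1 := by unfold chi; split_ifs <;> norm_num

theorem S_val (h5 : 5 ≤ p) (hpn : p = 4 * n + 1) : EQ p 2 (S p) (chi p * (p * aa (3 * n))) := by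
  rw [S_eq]; exact S1 h5 hpn chi_sq (chi_pow h5 hpn)

theorem T_val (h7 : 7 ≤ p) (hpn : p = 4 * n + 1) : EQ p 2 (T p) (p * aa (3 * n)) := by
  rw [T_eq]; exact T1' h7 hpn

theorem rep_ex (hpn : p = 4 * n + 1) : ∃ x y : ℤ, (p : ℤ) = x ^ 2 + y ^ 2 ∧ x % 4 = 1 := by
  obtain ⟨a, b, hab⟩ := Nat.Prime.sq_add_sq (p := p) (by omega)
  have key : ∀ a b : ℤ, a ^ 2 + b ^ 2 = p → a % 2 = 1 → ∃ x y : ℤ, (p : ℤ) = x ^ 2 + y ^ 2 ∧ x % 4 = 1 := by
    intro a b h ha
    have : a % 4 = 1 ∨ a % 4 = 3 := by omega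
    rcases this with h1 | h1
    · exact ⟨a, b, h.symm, h1⟩
    · exact ⟨-a, b, by rw [neg_sq]; exact h.symm, by omega⟩
  have hab' : (a : ℤ) ^ 2 + (b : ℤ) ^ 2 = p := by exact_mod_cast hab
  rcases Int.emod_two_eq_zero_or_one (a : ℤ) with ha | ha
  · rcases Int.emod_two_eq_zero_or_one (b : ℤ) with hb | hb
    · exfalso
      have h1 : ((a : ℤ) ^ 2 + (b : ℤ) ^ 2) % 2 = 0 := by
        rw [Int.add_emod, pow_two, pow_two, Int.mul_emod, ha, Int.mul_emod (b : ℤ), hb]; norm_num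
      rw [hab'] at h1; omega
    · exact key b a (by rw [add_comm]; exact hab') hb
  · exact key a b hab' ha

theorem sgn (n : ℕ) : ((-1 : ℤ) ^ n) ^ 2 = 1 := by rw [← pow_mul, mul_comm, pow_mul]; norm_num

/-- the value depends on `x` like an odd function -/
theorem val_sign {e : ℤ} (he : e ^ 2 = 1) (x : ℤ) (p : ℕ) :
    (2 * ((e * x : ℤ) : ℚ) - p / (2 * ((e * x : ℤ) : ℚ))) = e * (2 * (x : ℚ) - p / (2 * x)) := by
  have : e = 1 ∨ e = -1 := by
    have h : (e - 1) * (e + 1) = 0 := by linear_combination he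
    rcases mul_eq_zero.1 h with h | h
    · left; linarith
    · right; linarith
  rcases this with rfl | rfl
  · simp
  · push_cast
    rw [show (2 : ℚ) * (-1 * x) = -(2 * x) by ring, div_neg]
    ring

theorem I_sign {e : ℤ} (he : e ^ 2 = 1) {m : ℕ} {a : ℚ} (h : I p m (e * a)) : I p m a := by
  have h1 := h.mulL (int_mem (p := p) e)
  have : (e : ℚ) * (e * a) = a := by
    have : (e : ℚ) ^ 2 = 1 := by exact_mod_cast he
    linear_combination a * this
  rwa [this] at h1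

/-- The congruences, with the sign of `x` determined. -/
theorem main_a (h5 : 5 ≤ p) (hpn : p = 4 * n + 1) : ∃ x y : ℤ, Odd x ∧ (p : ℤ) = x ^ 2 + y ^ 2 ∧
    I p 2 (S p - (2 * x - p / (2 * x))) ∧ (7 ≤ p → I p 2 (chi p * T p - (2 * x - p / (2 * x)))) := by
  obtain ⟨x, y, hxy, hx⟩ := rep_ex hpn
  have hV := V_eq hpn hxy hx
  set e : ℤ := chi p * (-1) ^ n with he
  have he2 : e ^ 2 = 1 := by rw [he, mul_pow, chi_sq, sgn, one_mul]
  have hval := val_sign he2 x p
  have hw : (chi p : ℚ) * ((-1) ^ n * (2 * (x : ℚ) - p / (2 * x))) =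
      2 * ((e * x : ℤ) : ℚ) - p / (2 * ((e * x : ℤ) : ℚ)) := by
    rw [hval, he]; push_cast; ring
  have hm := (EQ.refl (p := p) (k := 2) (int_mem (p := p) (chi p))).mul hV
  rw [hw] at hm
  refine ⟨e * x, y, ?_, ?_, ?_, ?_⟩
  · have hxo : Odd x := by rw [Int.odd_iff]; omega
    have heo : Odd e := by
      have : Odd (e ^ 2) := by rw [he2]; exact odd_one
      exact (Int.odd_pow' two_ne_zero).1 this
    exact heo.mul hxo
  · rw [mul_pow, he2, one_mul]; exact hxy
  · exact ((S_val h5 hpn).trans hm).2.2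
  · intro h7
    exact (((EQ.refl (p := p) (k := 2) (int_mem (p := p) (chi p))).mul (T_val h7 hpn)).trans hm).2.2

/-- the universal value is a unit -/
theorem V_not (h5 : 5 ≤ p) (hpn : p = 4 * n + 1) : ¬ I p 1 ((p : ℚ) * aa (3 * n)) := by
  obtain ⟨x, y, hxy, hx⟩ := rep_ex hpn
  have hV := (V_eq hpn hxy hx).mono (l := 1) (by norm_num)
  intro hI
  have h1 : I p 1 ((-1) ^ n * (2 * (x : ℚ) - p / (2 * x))) := by
    have := hI.sub hV.2.2
    convert this using 1; ring
  have h2 : I p 1 (2 * (x : ℚ) - p / (2 * x)) := by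
    refine I_sign (e := (-1) ^ n) (sgn n) ?_
    push_cast; exact h1
  have hx0 : x ≠ 0 := by omega
  have hpx : ¬ (p : ℤ) ∣ 2 * x := by
    intro hd
    have hpz : Prime (p : ℤ) := Nat.prime_iff_prime_int.1 hpf.out
    rcases hpz.dvd_or_dvd hd with h | h
    · have := Int.le_of_dvd (by norm_num) h; omega
    · have h3 : (p : ℤ) ∣ x ^ 2 := Dvd.dvd.pow h two_ne_zero
      have h4 : 0 < x ^ 2 := by positivity
      have h5 := Int.le_of_dvd h4 h3
      have h6 : y ^ 2 ≤ 0 := by linarith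
      have h7 : y = 0 := by
        have := le_antisymm h6 (sq_nonneg y)
        exact pow_eq_zero_iff two_ne_zero |>.1 this
      rw [h7] at hxy
      have h8 : (p : ℤ) = x ^ 2 := by linarith
      have h9 : IsSquare (p : ℤ) := ⟨x, by rw [h8]; ring⟩
      exact hpz.irreducible.not_isSquare h9
  have hu : U p ((2 * x : ℤ) : ℚ) := U_int hpx
  have h3 : I p 1 (p / ((2 * x : ℤ) : ℚ)) := by
    rw [div_eq_mul_inv]; exact I_p.mulR hu.2.2
  have h4 : I p 1 (((2 * x : ℤ) : ℚ)) := by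
    have := h2.add h3
    convert this using 1
    push_cast; ring
  exact hu.not_I one_pos h4

theorem printed_iff (h7 : 7 ≤ p) (hpn : p = 4 * n + 1) : Printed p ↔ p % 24 = 1 ∨ p % 24 = 5 := by
  have h4 : (p - 1) / 4 = n := by omega
  have hp3 : p % 3 ≠ 0 := by
    intro h
    have := (Nat.prime_dvd_prime_iff_eq Nat.prime_three hpf.out).1 (Nat.dvd_of_mod_eq_zero h)
    omega
  have hsig : chi p = (-1) ^ n ↔ p % 24 = 1 ∨ p % 24 = 5 := by
    rcases Nat.even_or_odd n with hn | hn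
    · rw [hn.neg_one_pow, chi]
      obtain ⟨k, hk⟩ := hn
      split_ifs with h
      · simp; omega
      · simp; omega
    · rw [hn.neg_one_pow, chi]
      obtain ⟨k, hk⟩ := hn
      split_ifs with h
      · simp; omega
      · simp; omega
  rw [← hsig]
  constructor
  · rintro ⟨x, y, -, -, h1, h2⟩
    by_contra hne
    have hneg : ((-1 : ℤ)) ^ n = -chi p := by
      have a1 := sgn n
      have a2 := chi_sq (p := p)
      have : (chi p - (-1) ^ n) * (chi p + (-1) ^ n) = 0 := by linear_combination a2 - a1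
      rcases mul_eq_zero.1 this with h | h
      · exact absurd (by linarith) hne
      · linarith
    rw [h4] at h2
    have i1 := I_of_congr h1
    have i2 := I_of_congr h2
    have s := (S_val (by omega) hpn).2.2
    have t := (T_val h7 hpn).2.2
    have hq : ((-1 : ℚ)) ^ n = -(chi p : ℚ) := by exact_mod_cast congrArg (Int.cast (R := ℚ)) hneg
    rw [hq] at i2
    have t' := t.mulL (int_mem (p := p) (chi p))
    have h6 : I p 2 ((2 : ℚ) * (chi p * (p * aa (3 * n)))) := by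
      have := ((i1.sub i2).sub s).sub t'
      convert this using 1
      ring
    have u2 : U p (2 : ℚ) := unit2 hpn
    exact V_not (by omega) hpn ((I_sign (chi_sq (p := p)) (u2.cancel h6)).mono (by norm_num))
  · intro he
    obtain ⟨x, y, hx, hxy, h1, h2⟩ := main_a (by omega) hpn
    refine ⟨x, y, hx, hxy, congr_of_I h1, congr_of_I ?_⟩
    rw [h4]
    have hq : ((-1 : ℚ)) ^ n = (chi p : ℚ) := by exact_mod_cast congrArg (Int.cast (R := ℚ)) he.symm
    rw [hq]
    exact h2 h7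

omit hpf in
theorem ST_five : S 5 + T 5 = 3696333013835 / 1880739938304 := by
  norm_num [S, T, binom, Finset.sum_range_succ, Finset.prod_range_succ, Nat.factorial]

theorem dvd_num {k : ℕ} {A B : ℤ} (hB : B ≠ 0) (h : I p k ((A : ℚ) / B)) : (p : ℤ) ^ k ∣ A := by
  obtain ⟨z, ⟨a, b, hb, hz'⟩, hz⟩ := h
  have hb0 : (b : ℚ) ≠ 0 := by
    intro h0; apply hb
    have : b = 0 := by exact_mod_cast h0
    rw [this]; exact dvd_zero _
  have hB0 : (B : ℚ) ≠ 0 := by exact_mod_cast hB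
  have h4 : (A : ℚ) * b = (p : ℚ) ^ k * (B * a) := by
    rw [div_eq_iff hB0] at hz
    rw [hz, hz']
    field_simp
  have h5 : A * b = (p : ℤ) ^ k * (B * a) := by exact_mod_cast h4
  have hpz : Prime (p : ℤ) := Nat.prime_iff_prime_int.1 hpf.out
  have hc : IsCoprime ((p : ℤ) ^ k) b := ((Prime.coprime_iff_not_dvd hpz).2 hb).pow_left
  exact hc.dvd_of_dvd_mul_right ⟨_, h5⟩

theorem not_I_five [Fact (Nat.Prime 5)] : ¬ I 5 2 ((3696333013835 : ℚ) / 1880739938304) := by
  intro h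
  have h1 := dvd_num (p := 5) (k := 2) (A := 3696333013835) (B := 1880739938304) (by norm_num)
    (by push_cast; exact h)
  norm_num at h1

theorem not_printed_five [Fact (Nat.Prime 5)] : ¬ Printed 5 := by
  rintro ⟨x, y, -, -, h1, h2⟩
  have i1 := I_of_congr h1
  have i2 := I_of_congr h2
  have e : ((-1 : ℚ)) ^ ((5 - 1) / 4) = -1 := by norm_num
  rw [e] at i2
  have h3 := i1.sub i2
  have e2 : S 5 - (2 * (x : ℚ) - ((5 : ℕ) : ℚ) / (2 * x)) - (-1 * T 5 - (2 * (x : ℚ) - ((5 : ℕ) : ℚ) / (2 * x))) =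
      S 5 + T 5 := by ring
  rw [e2, ST_five] at h3
  exact not_I_five h3

/-- **Main result.** -/
theorem result : ∀ p : ℕ, p.Prime → 5 ≤ p →
    -- (a), with the sign corrected
    (p % 4 = 1 → ∃ x y : ℤ, Odd x ∧ (p : ℤ) = x ^ 2 + y ^ 2 ∧
      Congr p 2 (S p) (2 * x - p / (2 * x)) ∧
      (p ≠ 5 → Congr p 2 (chi p * T p) (2 * x - p / (2 * x)))) ∧
    -- the primes for which (a) is true as printed
    (p % 4 = 1 → (Printed p ↔ p ≠ 5 ∧ (p % 24 = 1 ∨ p % 24 = 5))) ∧
    -- (b)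
    (p % 4 = 3 → Congr p 1 (S p) 0 ∧ Congr p 1 (T p) 0) := by
  intro p hp h5
  have : Fact p.Prime := ⟨hp⟩
  refine ⟨fun h => ?_, fun h => ?_, fun h => ?_⟩
  · obtain ⟨x, y, hx, hxy, h1, h2⟩ := main_a (n := (p - 1) / 4) h5 (by omega)
    exact ⟨x, y, hx, hxy, congr_of_I h1, fun h' => congr_of_I (h2 (by omega))⟩
  · by_cases h' : p = 5
    · subst h'
      exact ⟨fun h => absurd h not_printed_five, fun h => absurd rfl h.1⟩
    · rw [printed_iff (n := (p - 1) / 4) (by omega) (by omega)]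
      exact ⟨fun h => ⟨h', h⟩, fun h => h.2⟩
  · have hpn : p = 4 * ((p - 3) / 4) + 3 := by omega
    refine ⟨congr_of_I ?_, congr_of_I ?_⟩
    · rw [sub_zero, S_eq]; exact Sb h5 hpn
    · rw [sub_zero, T_eq]; exact Tb (by omega) hpn

end Pool.Agent.Results.MP_cec948_nt.Corrected
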